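import Mathlib
import Pool.Agent.Y359.PE.NoPop

/-!
# Sets of small doubling and intersections of subgroups
-/

set_option autoImplicit false

namespace Pool.Agent.R849.IS

open Finset Pool.Agent.Y359.PE
open scoped Pointwise

universe u

/-- the coordinate of `a` at the subgroup `G` -/
noncomputable def X {Γ : Type u} [AddCommGroup Γ] (e : AddSubgroup Γ → Γ) (a : Γ)
    (G : AddSubgroup Γ) : (G : AddSubgroup Γ) → Γ ⧸ G :=
  open Classical in Pi.single G (QuotientAddGroup.mk (a - e G))

lemma X_eq_iff {Γ : Type u} [AddCommGroup Γ] {e : AddSubgroup Γ → Γ} {a b : Γ}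
    {G : AddSubgroup Γ} : X e a G = X e b G ↔ a - b ∈ G := by
  classical
  unfold X
  rw [(Pi.single_injective G).eq_iff, QuotientAddGroup.eq]
  have : -(a - e G) + (b - e G) = -(a - b) := by abel
  rw [this, neg_mem_iff]

lemma X_eq_zero {Γ : Type u} [AddCommGroup Γ] {e : AddSubgroup Γ → Γ} {a : Γ}
    {G : AddSubgroup Γ} : X e a G = 0 ↔ a - e G ∈ G := by
  classical
  unfold X
  rw [Pi.single_eq_zero_iff, QuotientAddGroup.eq_zero_iff]

open Classical in
/-- the entropy of the coordinates in `T` -/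
theorem entropy {Γ : Type u} [AddCommGroup Γ] {A : Finset Γ} (hA : A.Nonempty)
    (T : Finset (AddSubgroup Γ)) (e : AddSubgroup Γ → Γ) {L : ℝ} (hL : 1 < L)
    (hl : 5 < Real.log L)
    (hT : ∀ G ∈ T, L * ((A.filter fun a => a - e G ∉ G).card : ℝ) ≤ A.card) :
    (1 - 10 / Real.log L) * h A (mk T (X e)) ≤
      Real.log (A + A).card - Real.log A.card := by
  obtain ⟨p1, p2, p3⟩ := params hL hl (show (0 : ℝ) ≤ 1 by norm_num)
  have hL0 : 0 < L := by linarith
  have hl0 : 0 < Real.log L := by linarith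
  have hN : (0 : ℝ) < A.card := by exact_mod_cast card_pos.2 hA
  set θ := 1 / Real.sqrt L with hθ
  have hnz : ∀ G ∈ T, (nz A (fun a => X e a G) : ℝ) ≤ 1 / L * A.card := by
    intro G hG
    have h1 : nz A (fun a => X e a G) = (A.filter fun a => a - e G ∉ G).card := by
      unfold nz
      congr 1
      ext a
      simp only [mem_filter, ne_eq, X_eq_zero]
    rw [h1, one_div, ← div_eq_inv_mul, le_div_iff₀ hL0]
    have := hT G hG
    linarith
  have h1 := two A A hA hA (X e) (X e) (τ := 1 / L) (θ := θ) p1 p2 T hnz hnz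
  set z := mk T (X e) with hz
  set f : Γ × Γ → AddSubgroup Γ → ((G : AddSubgroup Γ) → Γ ⧸ G) :=
    mk T (fun s : Γ × Γ => X e s.1 + X e s.2) with hf
  have hfz : ∀ s, f s = z s.1 + z s.2 := fun s => mk_add T (X e) (X e) s
  have hz0 := h_nonneg A z
  have h2 : (1 - 5 / Real.log L) * (h A z + h A z) ≤ h (A ×ˢ A) f := by
    refine le_trans (mul_le_mul_of_nonneg_right ?_ (by linarith)) h1
    have e1 : (4 + 1 : ℝ) = 5 := by norm_num
    rw [one_mul, e1] at p3
    linarith
  -- submodularity
  have h3 := submod (A ×ˢ A) f (fun s => (z s.1, s.2)) (fun s => s.1 + s.2) (by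
    intro s _ t _ hst
    rw [Prod.mk.injEq] at hst
    rw [hfz, hfz, hst.1, hst.2])
  -- the four entropies
  have e1 : h (A ×ˢ A) (fun s : Γ × Γ => ((z s.1, s.2), s.1 + s.2)) =
      2 * Real.log A.card := by
    unfold h
    have : ∀ s ∈ A ×ˢ A, (Real.log ((A ×ˢ A).card : ℝ) -
        Real.log (fc (A ×ˢ A) (fun s : Γ × Γ => ((z s.1, s.2), s.1 + s.2)) s : ℝ)) =
        2 * Real.log A.card := by
      intro s hs
      have h4 : fc (A ×ˢ A) (fun s : Γ × Γ => ((z s.1, s.2), s.1 + s.2)) s = 1 := by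
        unfold fc
        rw [card_eq_one]
        refine ⟨s, ?_⟩
        ext t
        rw [mem_cl, mem_singleton]
        constructor
        · rintro ⟨-, h5⟩
          rw [Prod.mk.injEq, Prod.mk.injEq] at h5
          have h6 : t.1 = s.1 := by
            have := h5.2
            rw [h5.1.2] at this
            exact add_right_cancel this
          exact Prod.ext h6 h5.1.2
        · rintro rfl
          exact ⟨hs, rfl⟩
      rw [h4, card_product, Nat.cast_mul, Real.log_mul hN.ne' hN.ne', Nat.cast_one, Real.log_one]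
      ring
    rw [sum_congr rfl this, sum_const, nsmul_eq_mul, card_product]
    push_cast
    field_simp
  have e2 : h (A ×ˢ A) (fun s : Γ × Γ => (z s.1, s.2)) = h A z + Real.log A.card := by
    unfold h
    have : ∀ s ∈ A ×ˢ A, (Real.log ((A ×ˢ A).card : ℝ) -
        Real.log (fc (A ×ˢ A) (fun s : Γ × Γ => (z s.1, s.2)) s : ℝ)) =
        (Real.log A.card - Real.log (fc A z s.1)) + Real.log A.card := by
      intro s hs
      rw [mem_product] at hs
      have h4 : fc (A ×ˢ A) (fun s : Γ × Γ => (z s.1, s.2)) s = fc A z s.1 := by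
        unfold fc
        have h5 := cl_prod A A z (fun b : Γ => b) s
        rw [h5, card_product]
        have h6 : (cl A (fun b : Γ => b) s.2).card = 1 := by
          rw [card_eq_one]
          refine ⟨s.2, ?_⟩
          ext t
          rw [mem_cl, mem_singleton]
          exact ⟨fun h7 => h7.2, fun h7 => ⟨h7 ▸ hs.2, h7⟩⟩
        rw [h6, mul_one]
      rw [h4, card_product, Nat.cast_mul, Real.log_mul hN.ne' hN.ne']
      ring
    rw [sum_congr rfl this, sum_product, card_product]
    simp only [sum_const, nsmul_eq_mul, ← mul_sum]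
    rw [sum_add_distrib, sum_const, nsmul_eq_mul]
    push_cast
    field_simp
  have e3 : h (A ×ˢ A) (fun s : Γ × Γ => (f s, s.1 + s.2)) ≤ Real.log (A + A).card := by
    have h4 : h (A ×ˢ A) (fun s : Γ × Γ => (f s, s.1 + s.2)) =
        h (A ×ˢ A) (fun s : Γ × Γ => s.1 + s.2) := by
      refine h_congr fun s _ t _ => ?_
      rw [Prod.mk.injEq]
      refine ⟨fun h5 => h5.2, fun h5 => ⟨?_, h5⟩⟩
      rw [hf]
      rw [mk_eq_iff]
      intro G _
      show X e s.1 G + X e s.2 G = X e t.1 G + X e t.2 G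
      unfold X
      rw [← Pi.single_add, ← Pi.single_add]
      congr 1
      rw [← QuotientAddGroup.mk_add, ← QuotientAddGroup.mk_add]
      congr 1
      have : s.1 - e G + (s.2 - e G) = (s.1 + s.2) - e G - e G := by abel
      rw [this, h5]
      abel
    rw [h4]
    exact h_le_log (hA.product hA) _
  rw [e1, e2] at h3
  have h5 : 2 * (5 / Real.log L) = 10 / Real.log L := by ring
  nlinarith

open Classical in
/-- **Intersections of subgroups.** -/
theorem inter {Γ : Type u} [AddCommGroup Γ] {A : Finset Γ} (hA : A.Nonempty) {K L : ℝ}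
    (hK : ((A + A).card : ℝ) ≤ K * A.card) (hL : 1 < L) (hl : 10 < Real.log L)
    (F : Set (AddSubgroup Γ))
    (hF : ∀ G ∈ F, ∃ e : Γ, L * ((A.filter fun a => a - e ∉ G).card : ℝ) ≤ A.card) :
    ∃ g ∈ A, (A.card : ℝ) ≤ K ^ (1 / (1 - 10 / Real.log L)) *
      (A.filter fun a => a - g ∈ sInf F).card := by
  have hl0 : 0 < Real.log L := by linarith
  have hN : (0 : ℝ) < A.card := by exact_mod_cast card_pos.2 hA
  have hAA : (A.card : ℝ) ≤ (A + A).card := by
    exact_mod_cast card_le_card_add_right hA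
  have hK1 : 1 ≤ K := by nlinarith
  choose! e he using hF
  -- finitely many subgroups separate the elements
  have hsep : ∀ s : Γ × Γ, ∃ G : AddSubgroup Γ, s.1 - s.2 ∉ sInf F → G ∈ F ∧ s.1 - s.2 ∉ G := by
    intro s
    by_cases hs : s.1 - s.2 ∈ sInf F
    · exact ⟨⊥, fun h => absurd hs h⟩
    · rw [AddSubgroup.mem_sInf] at hs
      push Not at hs
      obtain ⟨G, hG, h⟩ := hs
      exact ⟨G, fun _ => ⟨hG, h⟩⟩
  choose G hG using hsep
  set T : Finset (AddSubgroup Γ) := ((A ×ˢ A).filter fun s => s.1 - s.2 ∉ sInf F).image G with hT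
  have hTF : ∀ H ∈ T, H ∈ F := by
    intro H hH
    obtain ⟨s, hs, rfl⟩ := mem_image.1 hH
    exact (hG s (mem_filter.1 hs).2).1
  have h1 := entropy hA T e hL (by linarith) (fun H hH => he H (hTF H hH))
  set z := mk T (X e) with hz
  have hκ : 0 < 1 - 10 / Real.log L := by
    rw [sub_pos, div_lt_one hl0]
    exact hl
  have h2 : Real.log (A + A).card - Real.log A.card ≤ Real.log K := by
    rw [sub_le_iff_le_add, ← Real.log_mul (by linarith) hN.ne']
    exact Real.log_le_log (by linarith) hK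
  have h3 : h A z ≤ Real.log K / (1 - 10 / Real.log L) := by
    rw [le_div_iff₀ hκ]
    linarith
  -- a popular class
  obtain ⟨x, hx, hx2⟩ : ∃ x ∈ A, Real.log A.card - Real.log (fc A z x) ≤ h A z := by
    by_contra hcon
    push Not at hcon
    have h4 := sum_lt_sum_of_nonempty hA hcon
    rw [sum_const, nsmul_eq_mul] at h4
    have h5 : h A z * A.card = ∑ x ∈ A, (Real.log A.card - Real.log (fc A z x)) := by
      unfold h
      field_simp
    linarith
  refine ⟨x, hx, ?_⟩
  have h4 : cl A z x ⊆ A.filter fun a => a - x ∈ sInf F := by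
    intro y hy
    rw [mem_cl, hz, mk_eq_iff] at hy
    rw [mem_filter]
    refine ⟨hy.1, ?_⟩
    by_contra hcon
    have h5 := hG (y, x) hcon
    refine h5.2 (X_eq_iff.1 (hy.2 _ ?_))
    exact mem_image_of_mem _ (mem_filter.2 ⟨mem_product.2 ⟨hy.1, hx⟩, hcon⟩)
  have h5 : (fc A z x : ℝ) ≤ (A.filter fun a => a - x ∈ sInf F).card := by
    exact_mod_cast card_le_card h4
  have h6 := fc_posR (f := z) hx
  have h7 : Real.log A.card ≤ Real.log (K ^ (1 / (1 - 10 / Real.log L)) * fc A z x) := by
    rw [Real.log_mul (by positivity) h6.ne', Real.log_rpow (by linarith)]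
    have : 1 / (1 - 10 / Real.log L) * Real.log K = Real.log K / (1 - 10 / Real.log L) := by ring
    linarith
  have h8 := (Real.log_le_log_iff hN (by positivity)).1 h7
  exact h8.trans (mul_le_mul_of_nonneg_left h5 (by positivity))

lemma ncard_eq {Γ : Type u} (A : Finset Γ) (P : Γ → Prop) [DecidablePred P] :
    {a | a ∈ A ∧ P a}.ncard = (A.filter P).card := by
  rw [← Set.ncard_coe_finset]
  congr 1
  ext a
  simp

/-- `inter` with any decidability instances -/
theorem inter' {Γ : Type u} [AddCommGroup Γ] [d : DecidableEq Γ] {A : Finset Γ}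
    (hA : A.Nonempty) {K L : ℝ} (hK : ((A + A).card : ℝ) ≤ K * A.card) (hL : 1 < L)
    (hl : 10 < Real.log L) (F : Set (AddSubgroup Γ))
    (hF : ∀ G ∈ F, ∃ e : Γ, L * ({a | a ∈ A ∧ a - e ∉ G}.ncard : ℝ) ≤ A.card) :
    ∃ g ∈ A, (A.card : ℝ) ≤ K ^ (1 / (1 - 10 / Real.log L)) *
      {a | a ∈ A ∧ a - g ∈ sInf F}.ncard := by
  classical
  have hd : d = (fun a b => Classical.propDecidable (a = b)) := Subsingleton.elim _ _
  subst hd
  obtain ⟨g, hg, h⟩ := inter hA hK hL hl F (fun G hG => by
    obtain ⟨e, he⟩ := hF G hG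
    refine ⟨e, ?_⟩
    rw [← ncard_eq]
    exact he)
  refine ⟨g, hg, ?_⟩
  rw [ncard_eq]
  exact h

end Pool.Agent.R849.IS
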