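import Mathlib
import Pool.Agent.R849.IS.Main
import Pool.Agent.R92.Star.Pfr

/-!
# Transfer of the conclusion of the polynomial Freiman-Ruzsa conjecture from a subgroup
-/

set_option autoImplicit false

namespace Pool.Agent.R849.IS

open Finset Pool.Agent.Y806.DF Pool.Agent.R92.Star
open scoped Pointwise

universe u

/-- the elements of `G` which are `a - g` for some `a` in `A` -/
noncomputable def sec {Γ : Type u} [AddCommGroup Γ] (G : AddSubgroup Γ) (A : Finset Γ) (g : Γ) :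
    Finset G :=
  open Classical in A.preimage (fun s : G => g + (s : Γ)) (fun _ _ _ _ h =>
    Subtype.ext (add_left_cancel h))

lemma mem_sec {Γ : Type u} [AddCommGroup Γ] {G : AddSubgroup Γ} {A : Finset Γ} {g : Γ} {s : G} :
    s ∈ sec G A g ↔ g + (s : Γ) ∈ A := by
  unfold sec
  exact mem_preimage

open Classical in
lemma card_sec {Γ : Type u} [AddCommGroup Γ] (G : AddSubgroup Γ) (A : Finset Γ) (g : Γ) :
    (sec G A g).card = (A.filter fun a => a - g ∈ G).card := by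
  refine card_bij (fun s _ => g + (s : Γ)) ?_ ?_ ?_
  · intro s hs
    rw [mem_filter]
    refine ⟨mem_sec.1 hs, ?_⟩
    rw [add_sub_cancel_left]
    exact s.2
  · intro s _ t _ h
    exact Subtype.ext (add_left_cancel h)
  · intro a ha
    rw [mem_filter] at ha
    exact ⟨⟨a - g, ha.2⟩, mem_sec.2 (by simpa using ha.1), by simp⟩

lemma card_sec_add {Γ : Type u} [AddCommGroup Γ] [DecidableEq Γ] (G : AddSubgroup Γ)
    [DecidableEq G] (A : Finset Γ) (g : Γ) :
    (sec G A g + sec G A g).card ≤ (A + A).card := by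
  refine card_le_card_of_injOn (fun s => g + g + (s : Γ)) ?_ ?_
  · intro s hs
    obtain ⟨x, hx, y, hy, rfl⟩ := mem_add.1 (mem_coe.1 hs)
    rw [mem_coe, mem_add]
    exact ⟨g + x, mem_sec.1 hx, g + y, mem_sec.1 hy, by push_cast; abel⟩
  · intro s _ t _ h
    exact Subtype.ext (add_left_cancel h)

/-- `Data` passes from a section of `A` to `A`. -/
theorem data_sec {Γ : Type u} [AddCommGroup Γ] [DecidableEq Γ] (G : AddSubgroup Γ)
    [DecidableEq G] {A : Finset Γ} {g : Γ} {M L : ℝ} (hM : 1 ≤ M) (hL : 0 ≤ L)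
    (hbig : (A.card : ℝ) ≤ M * (sec G A g).card) {d : ℕ} {X : Finset (Fin d → ℤ)}
    {ψ : (Fin d → ℤ) →+ G} {H : AddSubgroup G} {g' : G} (hD : Data L (sec G A g) X ψ H g') :
    ∃ (ψ' : (Fin d → ℤ) →+ Γ) (H' : AddSubgroup Γ) (g₁ : Γ), Data (M * L) A X ψ' H' g₁ := by
  classical
  have hHfin := hD.fin
  have hcard : Nat.card (H.map G.subtype) = Nat.card H :=
    Nat.card_congr (H.equivMapOfInjective G.subtype G.subtype_injective).toEquiv.symm
  have hfin' : Finite (H.map G.subtype) := by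
    refine Nat.finite_of_card_ne_zero ?_
    rw [hcard]
    exact Nat.card_pos.ne'
  have hML : L ≤ M * L := le_mul_of_one_le_left hL hM
  have hsA : (sec G A g).card ≤ A.card := by
    rw [card_sec]
    exact card_filter_le _ _
  refine ⟨G.subtype.comp ψ, H.map G.subtype, g + (g' : Γ), ⟨hD.ne, hfin', ?_, ?_, ?_, ?_⟩⟩
  · exact hD.doubling.trans (mul_le_mul_of_nonneg_right hML (Nat.cast_nonneg _))
  · exact hD.dense.trans (mul_le_mul_of_nonneg_right hML (Nat.cast_nonneg _))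
  · rw [hcard]
    refine hD.size.trans (mul_le_mul hML (by exact_mod_cast hsA) (Nat.cast_nonneg _)
      (by positivity))
  · set S1 := (sec G A g).filter (fun a => ∃ x ∈ X, ∃ h ∈ H, a = g' + ψ x + h) with hS1
    set A1 := A.filter (fun a => ∃ x ∈ X, ∃ h ∈ H.map G.subtype,
      a = g + (g' : Γ) + (G.subtype.comp ψ) x + h) with hA1
    have h1 : {a : G | a ∈ sec G A g ∧ ∃ x ∈ X, ∃ h ∈ H, a = g' + ψ x + h} = (S1 : Set G) := by
      ext a
      rw [hS1, Finset.coe_filter]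
    have h2 : {a : Γ | a ∈ A ∧ ∃ x ∈ X, ∃ h ∈ H.map G.subtype,
        a = g + (g' : Γ) + (G.subtype.comp ψ) x + h} = (A1 : Set Γ) := by
      ext a
      rw [hA1, Finset.coe_filter]
    have hm := hD.meet
    rw [h1, Set.ncard_coe_finset] at hm
    rw [h2, Set.ncard_coe_finset]
    have h3 : S1.card ≤ A1.card := by
      refine card_le_card_of_injOn (fun s => g + (s : Γ)) ?_ ?_
      · intro s hs
        rw [mem_coe, hS1, mem_filter] at hs
        obtain ⟨hs1, x, hx, h, hh, he⟩ := hs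
        rw [mem_coe, hA1, mem_filter]
        refine ⟨mem_sec.1 hs1, x, hx, h, ⟨h, hh, rfl⟩, ?_⟩
        rw [he]
        show g + ((g' + ψ x + h : G) : Γ) = g + (g' : Γ) + ((ψ x : G) : Γ) + (h : Γ)
        push_cast
        abel
      · intro s _ t _ h
        exact Subtype.ext (add_left_cancel h)
    calc (A.card : ℝ) ≤ M * (sec G A g).card := hbig
      _ ≤ M * (L * S1.card) := mul_le_mul_of_nonneg_left hm (by linarith)
      _ ≤ M * (L * A1.card) := by
        have : (S1.card : ℝ) ≤ A1.card := by exact_mod_cast h3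
        gcongr
      _ = M * L * A1.card := by ring

/-- **Transfer.** -/
theorem transfer (C : ℝ) : ∃ C' : ℝ, ∀ (Γ : Type u) [AddCommGroup Γ] [DecidableEq Γ]
    (G : AddSubgroup Γ) [DecidableEq G],
    (∀ (K : ℝ) (S : Finset G), S.Nonempty → ((S + S).card : ℝ) ≤ K * S.card → Concl C K S) →
    ∀ (K : ℝ) (A : Finset Γ) (g : Γ), A.Nonempty → ((A + A).card : ℝ) ≤ K * A.card →
      (A.card : ℝ) ≤ K ^ 2 * (sec G A g).card → Concl C' K A := by
  obtain ⟨n, hn1, hn, hCK⟩ := nat_const C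
  refine ⟨((5000 * (3 * (4 ^ n + 1)) ^ 5000 : ℕ) : ℝ), ?_⟩
  intro Γ _ _ G _ hG K A g hA hK hbig
  have hK1 := one_le_K hA hK
  have hK0 : 0 < K := by linarith
  have hA0 : (0 : ℝ) < A.card := by exact_mod_cast hA.card_pos
  have hSne : (sec G A g).Nonempty := by
    rw [← card_pos]
    by_contra hcon
    have h0 : (sec G A g).card = 0 := by omega
    rw [h0, Nat.cast_zero, mul_zero] at hbig
    linarith
  have hSS : ((sec G A g + sec G A g).card : ℝ) ≤ K ^ 3 * (sec G A g).card := by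
    have h1 : ((sec G A g + sec G A g).card : ℝ) ≤ (A + A).card := by
      exact_mod_cast card_sec_add G A g
    calc ((sec G A g + sec G A g).card : ℝ) ≤ K * A.card := h1.trans hK
      _ ≤ K * (K ^ 2 * (sec G A g).card) := mul_le_mul_of_nonneg_left hbig hK0.le
      _ = K ^ 3 * (sec G A g).card := by ring
  obtain ⟨e, X, ψ, H, g', hD⟩ := data_of_concl hn1 hn hCK hSne hSS (hG _ _ hSne hSS)
  have hM1 : (1 : ℝ) ≤ K ^ 2 := one_le_pow₀ hK1
  have hL1 : (0 : ℝ) ≤ ((4 ^ n : ℕ) : ℝ) * (K ^ 3) ^ (4 ^ n : ℕ) := by positivity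
  obtain ⟨ψ', H', g₁, hD'⟩ := data_sec G hM1 hL1 hbig hD
  have hn' : 1 ≤ 3 * (4 ^ n + 1) := Nat.one_le_iff_ne_zero.2 (by positivity)
  refine concl_of_data hn' hA hK (hD'.mono ?_)
  have e1 : (((4 ^ n : ℕ) : ℝ)) ≤ ((3 * (4 ^ n + 1) : ℕ) : ℝ) := by
    exact_mod_cast (by omega : 4 ^ n ≤ 3 * (4 ^ n + 1))
  have e2 : K ^ (2 + 3 * 4 ^ n) ≤ K ^ (3 * (4 ^ n + 1)) := pow_le_pow_right₀ hK1 (by omega)
  calc K ^ 2 * (((4 ^ n : ℕ) : ℝ) * (K ^ 3) ^ (4 ^ n : ℕ))
      = ((4 ^ n : ℕ) : ℝ) * K ^ (2 + 3 * 4 ^ n) := by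
        rw [← pow_mul, pow_add]
        ring
    _ ≤ ((3 * (4 ^ n + 1) : ℕ) : ℝ) * K ^ (3 * (4 ^ n + 1)) :=
        mul_le_mul e1 e2 (by positivity) (Nat.cast_nonneg _)

/-- covering by cosets of a subgroup -/
theorem cosets {Γ : Type u} [AddCommGroup Γ] [DecidableEq Γ] (G : AddSubgroup Γ) {A : Finset Γ}
    {g : Γ} {K M : ℝ} (hA : A.Nonempty) (hK : ((A + A).card : ℝ) ≤ K * A.card) (hK0 : 0 ≤ K)
    (hbig : (A.card : ℝ) ≤ M * (sec G A g).card) :
    ∃ T ⊆ A, (T.card : ℝ) ≤ K * M ∧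
      ∀ a ∈ A, ∃ t ∈ T, ∃ x ∈ sec G A g, ∃ y ∈ sec G A g, a = t + ((x - y : G) : Γ) := by
  have hA0 : (0 : ℝ) < A.card := by exact_mod_cast hA.card_pos
  set B : Finset Γ := (sec G A g).image (fun s : G => g + (s : Γ)) with hB
  have hBc : B.card = (sec G A g).card :=
    card_image_of_injective _ (fun s t h => Subtype.ext (add_left_cancel h))
  have hBA : B ⊆ A := by
    intro b hb
    obtain ⟨s, hs, rfl⟩ := mem_image.1 hb
    exact mem_sec.1 hs
  have hBne : B.Nonempty := by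
    rw [← card_pos, hBc]
    by_contra hcon
    have h0 : (sec G A g).card = 0 := by omega
    rw [h0, Nat.cast_zero, mul_zero] at hbig
    linarith
  have h1 : ((A + B).card : ℝ) ≤ (K * M) * B.card := by
    have h2 : ((A + B).card : ℝ) ≤ (A + A).card := by
      exact_mod_cast card_le_card (add_subset_add_left hBA)
    calc ((A + B).card : ℝ) ≤ K * A.card := h2.trans hK
      _ ≤ K * (M * (sec G A g).card) := mul_le_mul_of_nonneg_left hbig hK0
      _ = (K * M) * B.card := by rw [hBc]; ring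
  obtain ⟨T, hTA, hT, hcov⟩ := ruzsa_covering_add hBne h1
  refine ⟨T, hTA, hT, fun a ha => ?_⟩
  obtain ⟨t, ht, z, hz, rfl⟩ := mem_add.1 (hcov ha)
  obtain ⟨b, hb, c, hc, rfl⟩ := mem_sub.1 hz
  obtain ⟨x, hx, rfl⟩ := mem_image.1 hb
  obtain ⟨y, hy, rfl⟩ := mem_image.1 hc
  refine ⟨t, ht, x, hx, y, hy, ?_⟩
  push_cast
  abel

/-- **Intersections of bounded exponent.** -/
theorem torsion {Γ : Type u} [AddCommGroup Γ] [DecidableEq Γ] (G : AddSubgroup Γ) {m : ℕ}
    (hm : 0 < m) (hG : ∀ x ∈ G, m • x = 0) {A : Finset Γ} {g : Γ} {K : ℝ} (hA : A.Nonempty)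
    (hK : ((A + A).card : ℝ) ≤ K * A.card) (hbig : (A.card : ℝ) ≤ K ^ 2 * (sec G A g).card) :
    ∃ (H : AddSubgroup Γ) (T : Finset Γ), Finite H ∧ Nat.card H ≤ A.card ∧
      (T.card : ℝ) ≤ (2 * K) ^ (246033 * (Nat.log 2 m + 1)) ∧ ∀ a ∈ A, ∃ t ∈ T, a - t ∈ H := by
  classical
  obtain ⟨N, hN⟩ : ∃ N : ℕ, N = 246033 * (Nat.log 2 m + 1) := ⟨_, rfl⟩
  rw [← hN]
  have hK1 := one_le_K hA hK
  have hK0 : 0 < K := by linarith
  have hA0 : (0 : ℝ) < A.card := by exact_mod_cast hA.card_pos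
  have hSne : (sec G A g).Nonempty := by
    rw [← card_pos]
    by_contra hcon
    have h0 : (sec G A g).card = 0 := by omega
    rw [h0, Nat.cast_zero, mul_zero] at hbig
    linarith
  have hSS : ((sec G A g + sec G A g).card : ℝ) ≤ K ^ 3 * (sec G A g).card := by
    have h1 : ((sec G A g + sec G A g).card : ℝ) ≤ (A + A).card := by
      exact_mod_cast card_sec_add G A g
    calc ((sec G A g + sec G A g).card : ℝ) ≤ K * A.card := h1.trans hK
      _ ≤ K * (K ^ 2 * (sec G A g).card) := mul_le_mul_of_nonneg_left hbig hK0.le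
      _ = K ^ 3 * (sec G A g).card := by ring
  obtain ⟨H, T0, hfin, hcard, hT0, hcov⟩ := Pool.Agent.TH404.Tor.upper (Γ := G) m hm
    (fun x => Subtype.ext (by simpa using hG x x.2)) (K ^ 3) (sec G A g) hSne hSS
  obtain ⟨T1, -, hT1, hcov1⟩ := cosets G hA hK hK0.le hbig
  obtain ⟨E, hE⟩ : ∃ E : ℕ, E = 41005 * (Nat.log 2 m + 1) := ⟨_, rfl⟩
  rw [← hE] at hT0
  have hEN : 3 + 6 * E ≤ N := by omega
  have hHcard : Nat.card (H.map G.subtype) = Nat.card H :=
    Nat.card_congr (H.equivMapOfInjective G.subtype G.subtype_injective).toEquiv.symm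
  refine ⟨H.map G.subtype, T1 + (T0 - T0).image (fun s : G => (s : Γ)), ?_, ?_, ?_, ?_⟩
  · refine Nat.finite_of_card_ne_zero ?_
    rw [hHcard]
    exact Nat.card_pos.ne'
  · rw [hHcard]
    refine hcard.trans ?_
    rw [card_sec]
    exact card_filter_le _ _
  · have h1 : ((T1 + (T0 - T0).image (fun s : G => (s : Γ))).card : ℝ) ≤
        T1.card * (T0.card * T0.card) := by
      have h2 := card_add_le (s := T1) (t := (T0 - T0).image (fun s : G => (s : Γ)))
      have h3 := h2.trans (Nat.mul_le_mul_left _ (card_image_le.trans (card_sub_le (s := T0) (t := T0))))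
      exact_mod_cast h3
    have h2 : (2 : ℝ) * K ^ 3 ≤ (2 * K) ^ 3 := by
      have : (0 : ℝ) < K ^ 3 := by positivity
      nlinarith
    have h3 : (T0.card : ℝ) ≤ (2 * K) ^ (3 * E) := by
      rw [pow_mul]
      exact hT0.trans (pow_le_pow_left₀ (by positivity) h2 _)
    have h4 : (T1.card : ℝ) ≤ (2 * K) ^ 3 := by
      refine hT1.trans ?_
      have : (0 : ℝ) < K ^ 3 := by positivity
      nlinarith
    calc ((T1 + (T0 - T0).image (fun s : G => (s : Γ))).card : ℝ) ≤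
        T1.card * (T0.card * T0.card) := h1
      _ ≤ (2 * K) ^ 3 * ((2 * K) ^ (3 * E) * (2 * K) ^ (3 * E)) := by gcongr
      _ = (2 * K) ^ (3 + 6 * E) := by
        rw [← pow_add, ← pow_add]
        congr 1
        ring
      _ ≤ (2 * K) ^ N := pow_le_pow_right₀ (by linarith) hEN
  · intro a ha
    obtain ⟨t, ht, x, hx, y, hy, rfl⟩ := hcov1 a ha
    obtain ⟨p, hp, hp2⟩ := hcov x hx
    obtain ⟨q, hq, hq2⟩ := hcov y hy
    refine ⟨t + ((p - q : G) : Γ), add_mem_add ht (mem_image_of_mem _ (sub_mem_sub hp hq)), ?_⟩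
    refine ⟨(x - p) - (y - q), H.sub_mem hp2 hq2, ?_⟩
    show (((x - p) - (y - q) : G) : Γ) = _
    push_cast
    abel

end Pool.Agent.R849.IS
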